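import Mathlib
import Pool.Agent.Helper206.Bottom.Lower

set_option autoImplicit false

namespace Pool.Agent.H143Z.KE

open Pool.Agent.Helper206.Bottom
open Set MeasureTheory Filter
open scoped Topology ContDiff ComplexConjugate ENNReal

variable {n : ℕ}

/-- Tangential coefficient. -/
noncomputable def Pc (N c s : ℝ) : ℝ := 2 * (N + c * (1 - s)) / (1 - s)
/-- Radial coefficient. -/
noncomputable def Qc (N s : ℝ) : ℝ := 2 * N / (1 - s) ^ 2
noncomputable def Ac (N c s : ℝ) : ℝ := N / ((1 - s) * (N + c * (1 - s)))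
noncomputable def Cc (N c s : ℝ) : ℝ := 2 * N * c / ((N + c * (1 - s)) * (N + c * (1 - s) ^ 2))
noncomputable def Bc (N c s : ℝ) : ℝ := 2 * (N + c * (1 - s) ^ 2) / (1 - s) ^ 2

/-- The metric: complex hyperbolic plus `2c` times Euclidean. -/
noncomputable def gc (n : ℕ) (c : ℝ) (z v w : Cn n) : ℝ :=
  gmet (Pc (n + 1) c) (Qc (n + 1)) z v w

section scal
variable {N c s : ℝ}

lemma PQ_eq (hs : s < 1) : Pc N c s + s * Qc N s = Bc N c s := by
  have h : (1 - s) ≠ 0 := by linarith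
  unfold Pc Qc Bc
  field_simp
  ring

lemma Pc_ge (hN : 1 ≤ N) (hc : 0 ≤ c) (h0 : 0 ≤ s) (hs : s < 1) : 2 ≤ Pc N c s := by
  have h : 0 < 1 - s := by linarith
  unfold Pc
  rw [le_div_iff₀ h]
  nlinarith [mul_nonneg hc h.le]

lemma Pc_pos (hN : 1 ≤ N) (hc : 0 ≤ c) (hs : s < 1) : 0 < Pc N c s := by
  have h : 0 < 1 - s := by linarith
  unfold Pc
  positivity

lemma Qc_pos (hN : 1 ≤ N) (hs : s < 1) : 0 < Qc N s := by
  have h : 0 < 1 - s := by linarith
  unfold Qc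
  positivity

lemma Bc_pos (hN : 1 ≤ N) (hc : 0 ≤ c) (hs : s < 1) : 0 < Bc N c s := by
  have h : 0 < 1 - s := by linarith
  unfold Bc
  positivity

lemma Bc_ge (hN : 1 ≤ N) (hc : 0 ≤ c) (h0 : 0 ≤ s) (hs : s < 1) : 2 ≤ Bc N c s := by
  rw [← PQ_eq hs]
  have := Pc_ge hN hc h0 hs
  have := mul_nonneg h0 (Qc_pos hN hs).le
  linarith

lemma hd_t (s : ℝ) : HasDerivAt (fun s : ℝ => 1 - s) (-1) s := by
  simpa using (hasDerivAt_id s).const_sub 1

lemma hasDerivAt_Pc (hs : s < 1) : HasDerivAt (Pc N c) (Qc N s) s := by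
  have h : (1 - s) ≠ 0 := by linarith
  have h1 := ((((hd_t s).const_mul c).const_add N).const_mul 2).div (hd_t s) h
  refine HasDerivAt.congr_deriv h1 ?_
  unfold Qc
  field_simp
  ring

lemma hasDerivAt_Qc (hN : 1 ≤ N) (hc : 0 ≤ c) (hs : s < 1) :
    HasDerivAt (Qc N) (Cc N c s * (Pc N c s + s * Qc N s) + 2 * Ac N c s * Qc N s) s := by
  have h : 0 < 1 - s := by linarith
  have h1 := (hasDerivAt_const s (2 * N)).div ((hd_t s).pow 2) (pow_ne_zero 2 h.ne')
  refine HasDerivAt.congr_deriv h1 ?_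
  rw [PQ_eq hs]
  have h2 : 0 < N + c * (1 - s) := by positivity
  have h3 : 0 < N + c * (1 - s) ^ 2 := by positivity
  unfold Qc Cc Bc Ac
  simp only [Nat.cast_ofNat, Nat.add_one_sub_one, pow_one, Pi.pow_apply]
  field_simp
  ring

/-- Derivative of `Ac`. -/
noncomputable def Ac' (N c s : ℝ) : ℝ :=
  N * (N + 2 * c * (1 - s)) / ((1 - s) * (N + c * (1 - s))) ^ 2

/-- Derivative of `Cc`. -/
noncomputable def Cc' (N c s : ℝ) : ℝ :=
  2 * N * c * (c * (N + c * (1 - s) ^ 2) + 2 * c * (1 - s) * (N + c * (1 - s))) /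
    ((N + c * (1 - s)) * (N + c * (1 - s) ^ 2)) ^ 2

lemma hasDerivAt_Ac (hN : 1 ≤ N) (hc : 0 ≤ c) (hs : s < 1) :
    HasDerivAt (Ac N c) (Ac' N c s) s := by
  have h : 0 < 1 - s := by linarith
  have h2 : 0 < N + c * (1 - s) := by positivity
  have h1 := (hasDerivAt_const s N).div ((hd_t s).mul (((hd_t s).const_mul c).const_add N))
    (mul_pos h h2).ne'
  refine HasDerivAt.congr_deriv h1 ?_
  unfold Ac'
  simp only [Pi.mul_apply]
  congr 1
  ring

lemma hasDerivAt_Cc (hN : 1 ≤ N) (hc : 0 ≤ c) (hs : s < 1) :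
    HasDerivAt (Cc N c) (Cc' N c s) s := by
  have h : 0 < 1 - s := by linarith
  have h2 : 0 < N + c * (1 - s) := by positivity
  have h3 : 0 < N + c * (1 - s) ^ 2 := by positivity
  have h1 := (hasDerivAt_const s (2 * N * c)).div ((((hd_t s).const_mul c).const_add N).mul
    ((((hd_t s).pow 2).const_mul c).const_add N)) (mul_pos h2 h3).ne'
  refine HasDerivAt.congr_deriv h1 ?_
  unfold Cc'
  simp only [Nat.cast_ofNat, Nat.add_one_sub_one, pow_one, Pi.pow_apply, Pi.mul_apply]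
  congr 1
  ring

lemma AP (hN : 1 ≤ N) (hc : 0 ≤ c) (hs : s < 1) : Ac N c s * Pc N c s = Qc N s := by
  have h : 0 < 1 - s := by linarith
  have h2 : 0 < N + c * (1 - s) := by positivity
  unfold Ac Pc Qc
  field_simp

lemma AC (hN : 1 ≤ N) (hc : 0 ≤ c) (hs : s < 1) :
    Ac' N c s = Ac N c s ^ 2 + Cc N c s * (1 + s * Ac N c s) := by
  have h : 0 < 1 - s := by linarith
  have h2 : 0 < N + c * (1 - s) := by positivity
  have h3 : 0 < N + c * (1 - s) ^ 2 := by positivity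
  unfold Ac' Ac Cc
  field_simp
  ring

lemma ric1 (hN : 1 ≤ N) (hc : 0 ≤ c) (hs : s < 1) :
    Pc N c s - 2 * (N * Ac N c s + s * Cc N c s)
      = 2 * (c + (N - 2) * c / (N + c * (1 - s)) + 2 * c * (1 - s) / (N + c * (1 - s) ^ 2)) := by
  have h : 0 < 1 - s := by linarith
  have h2 : 0 < N + c * (1 - s) := by positivity
  have h3 : 0 < N + c * (1 - s) ^ 2 := by positivity
  unfold Pc Ac Cc
  field_simp
  ring

lemma ric2 (hN : 1 ≤ N) (hc : 0 ≤ c) (hs : s < 1) :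
    Qc N s - 2 * (N * Ac' N c s + Cc N c s + s * Cc' N c s)
      = 2 * ((N - 2) * c ^ 2 / (N + c * (1 - s)) ^ 2
        - 2 * c * (N - c * (1 - s) ^ 2) / (N + c * (1 - s) ^ 2) ^ 2) := by
  have h : 0 < 1 - s := by linarith
  have h2 : 0 < N + c * (1 - s) := by positivity
  have h3 : 0 < N + c * (1 - s) ^ 2 := by positivity
  unfold Qc Ac' Cc Cc'
  field_simp
  ring

lemma ric1_nonneg (hN : 2 ≤ N) (hc : 0 ≤ c) (hs : s < 1) :
    0 ≤ Pc N c s - 2 * (N * Ac N c s + s * Cc N c s) := by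
  rw [ric1 (by linarith) hc hs]
  have h : 0 < 1 - s := by linarith
  have h1 : 0 ≤ N - 2 := by linarith
  have h0 : 0 < N := by linarith
  positivity

lemma ric2_nonneg (hN : 2 ≤ N) (hc : 0 ≤ c) (h0 : 0 ≤ s) (hs : s < 1) :
    0 ≤ (Pc N c s - 2 * (N * Ac N c s + s * Cc N c s))
      + s * (Qc N s - 2 * (N * Ac' N c s + Cc N c s + s * Cc' N c s)) := by
  rw [ric1 (by linarith) hc hs, ric2 (by linarith) hc hs]
  have h : 0 < 1 - s := by linarith
  have h1 : 0 ≤ N - 2 := by linarith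
  have hN0 : 0 < N := by linarith
  have h3 : 0 < N + c * (1 - s) ^ 2 := by positivity
  have a1 : 0 ≤ (N - 2) * c / (N + c * (1 - s)) := by positivity
  have a2 : 0 ≤ 2 * c * (1 - s) / (N + c * (1 - s) ^ 2) := by positivity
  have a3 : 0 ≤ s * ((N - 2) * c ^ 2 / (N + c * (1 - s)) ^ 2) := by positivity
  have a4 : s * (2 * c * (N - c * (1 - s) ^ 2) / (N + c * (1 - s) ^ 2) ^ 2) ≤ c := by
    rw [← mul_div_assoc, div_le_iff₀ (by positivity)]
    have b1 : 0 ≤ c * (1 - s) ^ 2 := by positivity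
    have b2 : N * N ≤ (N + c * (1 - s) ^ 2) ^ 2 := by nlinarith
    have b3 : s * (2 * (N - c * (1 - s) ^ 2)) ≤ N * N := by nlinarith [mul_nonneg h0 b1]
    have b4 := mul_le_mul_of_nonneg_left (b3.trans b2) hc
    nlinarith
  nlinarith

lemma contDiffOn_Pc : ContDiffOn ℝ ∞ (Pc N c) (Iio 1) := by
  unfold Pc
  apply ContDiffOn.div (by fun_prop) (by fun_prop)
  intro s hs
  have : s < 1 := hs
  linarith

lemma contDiffOn_Qc : ContDiffOn ℝ ∞ (Qc N) (Iio 1) := by
  unfold Qc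
  apply ContDiffOn.div (by fun_prop) (by fun_prop)
  intro s hs
  have : s < 1 := hs
  have : 0 < 1 - s := by linarith
  positivity

lemma contDiffOn_Bc : ContDiffOn ℝ ∞ (Bc N c) (Iio 1) := by
  unfold Bc
  apply ContDiffOn.div (by fun_prop) (by fun_prop)
  intro s hs
  have : s < 1 := hs
  have : 0 < 1 - s := by linarith
  positivity

end scal

lemma isOpen_ball' : IsOpen (unitBall n) := isOpen_lt continuous_sq continuous_const

lemma cdo_comp {F : ℝ → ℝ} (h : ContDiffOn ℝ ∞ F (Iio 1)) :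
    ContDiffOn ℝ ∞ (fun z : Cn n => F (esq z)) (unitBall n) :=
  h.comp contDiff_sq.contDiffOn fun _ hz => hz

lemma N1 (n : ℕ) : (1 : ℝ) ≤ (n : ℝ) + 1 := by
  have : (0 : ℝ) ≤ n := Nat.cast_nonneg n
  linarith

variable {c : ℝ}

lemma gc_self (z v : Cn n) : gc n c z v v
    = Pc (n + 1) c (esq z) * esq v + Qc (n + 1) (esq z) * Complex.normSq (ip v z) :=
  gmet_self z v

lemma gc_kahler (hc : 0 ≤ c) : IsKahlerMetric (unitBall n) (gc n c) where
  add_left z _ v v' w := gmet_add_left z v v' w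
  smul_left z _ a v w := gmet_smul_left z a v w
  symm z _ v w := gmet_symm z v w
  pos z hz v hv := gmet_pos (Pc_pos (N1 n) hc hz)
    (by rw [PQ_eq hz]; exact Bc_pos (N1 n) hc hz) hv
  hermitian z _ v w := gmet_herm z v w
  smooth v w := by
    refine Complex.reCLM.contDiff.comp_contDiffOn
      (g := Complex.reCLM)
      (f := fun z => (Pc (n + 1) c (esq z) : ℂ) * ip v w
        + (Qc (n + 1) (esq z) : ℂ) * (ip v z * ip z w)) ?_
    apply ContDiffOn.add
    · exact (Complex.ofRealCLM.contDiff.comp_contDiffOn (cdo_comp contDiffOn_Pc)).mul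
        contDiffOn_const
    · exact (Complex.ofRealCLM.contDiff.comp_contDiffOn (cdo_comp contDiffOn_Qc)).mul
        ((contDiff_ip_right v).contDiffOn.mul (contDiff_ip_left w).contDiffOn)
  closed z hz x v w := gmet_closed (hasDerivAt_Pc hz) (hasDerivAt_Qc (N1 n) hc hz) x v w

lemma gc_levi (hc : 0 ≤ c) :
    IsLeviCivita (unitBall n) (gc n c) (chr (Ac (n + 1) c) (Cc (n + 1) c)) :=
  fun _ hz x v w => chr_leviCivita (hasDerivAt_Pc hz) (hasDerivAt_Qc (N1 n) hc hz)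
    (AP (N1 n) hc hz) rfl x v w

lemma gc_ricci (hc : 0 ≤ c) {z : Cn n} (hz : z ∈ unitBall n) (v : Cn n) :
    ricci (chr (Ac (n + 1) c) (Cc (n + 1) c)) z v v + gc n c z v v
      = (Pc (n + 1) c (esq z) - 2 * ((n + 1) * Ac (n + 1) c (esq z)
          + esq z * Cc (n + 1) c (esq z))) * esq v
        + (Qc (n + 1) (esq z) - 2 * ((n + 1) * Ac' (n + 1) c (esq z) + Cc (n + 1) c (esq z)
          + esq z * Cc' (n + 1) c (esq z))) * Complex.normSq (ip v z) := by
  rw [ricci_chr (hasDerivAt_Ac (N1 n) hc hz) (hasDerivAt_Cc (N1 n) hc hz) (AC (N1 n) hc hz),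
    gc_self]
  ring

lemma gc_ricci_ge (hn : 1 ≤ n) (hc : 0 ≤ c) : RicciBoundedBelow (unitBall n) (gc n c) (-1) := by
  refine ⟨_, gc_levi hc, fun z hz v => ?_⟩
  have h := gc_ricci hc hz v
  have hN : (2 : ℝ) ≤ (n : ℝ) + 1 := by
    have : (1 : ℝ) ≤ n := by exact_mod_cast hn
    linarith
  have h1 := ric1_nonneg hN hc (show esq z < 1 from hz)
  have h2 := ric2_nonneg hN hc (sq_nonneg' z) (show esq z < 1 from hz)
  have h3 := gmet_lower (P := fun _ => Pc (n + 1) c (esq z) - 2 * ((n + 1) * Ac (n + 1) c (esq z)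
          + esq z * Cc (n + 1) c (esq z)))
      (Q := fun _ => Qc (n + 1) (esq z) - 2 * ((n + 1) * Ac' (n + 1) c (esq z) + Cc (n + 1) c (esq z)
          + esq z * Cc' (n + 1) c (esq z))) (z := z) (v := v) h1 h2
  rw [gmet_self] at h3
  linarith

lemma g0_einstein {z : Cn n} (hz : z ∈ unitBall n) (v : Cn n) :
    ricci (chr (Ac (n + 1) 0) (Cc (n + 1) 0)) z v v = - gc n 0 z v v := by
  have h := gc_ricci le_rfl hz v
  rw [ric1 (N1 n) le_rfl hz, ric2 (N1 n) le_rfl hz] at h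
  simp at h
  linarith

end Pool.Agent.H143Z.KE
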