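import Mathlib
import Pool.Agent.H143Z.KE.Met

set_option autoImplicit false

namespace Pool.Agent.H143Z.KE

open Pool.Agent.Helper206.Bottom
open Set MeasureTheory Filter
open scoped Topology ContDiff ComplexConjugate ENNReal

variable {n : ℕ} {c : ℝ}

lemma gc_nonneg (hc : 0 ≤ c) {z : Cn n} (hz : z ∈ unitBall n) (v : Cn n) : 0 ≤ gc n c z v v :=
  gmet_lower (Pc_pos (N1 n) hc hz).le (by rw [PQ_eq hz]; exact (Bc_pos (N1 n) hc hz).le)

lemma cont_speed {γ : ℝ → Cn n} (h : ContDiff ℝ 1 γ)
    (hX : ∀ t ∈ Icc (0 : ℝ) 1, γ t ∈ unitBall n) :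
    ContinuousOn (fun t => Real.sqrt (gc n c (γ t) (deriv γ t) (deriv γ t))) (Icc 0 1) := by
  have hd : Continuous (deriv γ) := h.continuous_deriv le_rfl
  have hc : Continuous γ := h.continuous
  apply ContinuousOn.sqrt
  have e : (fun t => gc n c (γ t) (deriv γ t) (deriv γ t)) = fun t =>
      Pc (n + 1) c (esq (γ t)) * esq (deriv γ t)
        + Qc (n + 1) (esq (γ t)) * Complex.normSq (ip (deriv γ t) (γ t)) := by
    funext t; exact gmet_self _ _
  rw [e]
  have h1 : ContinuousOn (fun t => Pc (n + 1) c (esq (γ t))) (Icc 0 1) :=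
    contDiffOn_Pc.continuousOn.comp (continuous_sq.comp hc).continuousOn
      (fun t ht => (hX t ht))
  have h2 : ContinuousOn (fun t => Qc (n + 1) (esq (γ t))) (Icc 0 1) :=
    contDiffOn_Qc.continuousOn.comp (continuous_sq.comp hc).continuousOn
      (fun t ht => (hX t ht))
  have h3 : Continuous fun t => ip (deriv γ t) (γ t) := by
    unfold ip
    exact continuous_finsetSum _ fun a _ => ((continuous_apply a).comp hd).mul
      (Complex.continuous_conj.comp ((continuous_apply a).comp hc))
  exact (h1.mul (continuous_sq.comp hd).continuousOn).add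
    (h2.mul (Complex.continuous_normSq.comp h3).continuousOn)

lemma lip' {F : Cn n → ℝ} {D : Cn n → Cn n → ℝ} (hF : ∀ z ∈ unitBall n, HD F (D z) z)
    (hD : ∀ z ∈ unitBall n, ∀ v, |D z v| ≤ Real.sqrt (gc n c z v v)) (p q : Cn n) :
    ENNReal.ofReal |F q - F p| ≤ rdist (unitBall n) (gc n c) p q := by
  unfold rdist
  refine le_iInf fun γ => le_iInf fun hγ => ENNReal.ofReal_le_ofReal ?_
  obtain ⟨h1, h2, h3, h4⟩ := hγ
  have hcont : Continuous γ := h1.continuous
  have hdiff : ∀ t, HasDerivAt γ (deriv γ t) t := fun t =>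
    (h1.differentiable (by norm_num) t).hasDerivAt
  have hcomp : ∀ t ∈ Icc (0 : ℝ) 1, HasDerivAt (fun t => F (γ t)) (D (γ t) (deriv γ t)) t := by
    intro t ht
    obtain ⟨L, hL, hL2⟩ := hF (γ t) (h2 t ht)
    have := hL.comp_hasDerivAt t (hdiff t)
    rw [hL2] at this
    exact this
  have hint : IntegrableOn (fun t => Real.sqrt (gc n c (γ t) (deriv γ t) (deriv γ t))) (Icc 0 1) :=
    (cont_speed h1 h2).integrableOn_compact isCompact_Icc
  have hFc : ContinuousOn (fun t => F (γ t)) (Icc 0 1) :=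
    fun t ht => (hcomp t ht).continuousAt.continuousWithinAt
  have k1 := intervalIntegral.sub_le_integral_of_hasDeriv_right_of_le (zero_le_one (α := ℝ)) hFc
    (fun t ht => (hcomp t (Ioo_subset_Icc_self ht)).hasDerivWithinAt) hint
    (fun t ht => (le_abs_self _).trans (hD _ (h2 t (Ioo_subset_Icc_self ht)) _))
  have k2 := intervalIntegral.sub_le_integral_of_hasDeriv_right_of_le (zero_le_one (α := ℝ))
    hFc.neg (fun t ht => (hcomp t (Ioo_subset_Icc_self ht)).neg.hasDerivWithinAt) hint
    (fun t ht => (neg_le_abs _).trans (hD _ (h2 t (Ioo_subset_Icc_self ht)) _))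
  simp only [Pi.neg_apply] at k2
  rw [h3, h4] at k1 k2
  rw [abs_le]
  constructor
  · show -(curveLength (gc n c) γ) ≤ _
    unfold curveLength; linarith
  · exact k1

/-- The exhaustion. -/
noncomputable def LL (z : Cn n) : ℝ := -Real.log (1 - esq z) / 2

lemma HD_LL {z : Cn n} (hz : z ∈ unitBall n) :
    HD LL (fun v => (ip v z).re / (1 - esq z)) z := by
  have h1 : 0 < 1 - esq z := by have : esq z < 1 := hz; linarith
  have h3 := (((hd_t (esq z)).log h1.ne').neg).div_const 2
  have := (HD_sq z).comp h3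
  refine this.congr fun v => ?_
  field_simp

lemma LL_bound (hc : 0 ≤ c) {z : Cn n} (hz : z ∈ unitBall n) (v : Cn n) :
    |(ip v z).re / (1 - esq z)| ≤ Real.sqrt (gc n c z v v) := by
  apply Real.le_sqrt_of_sq_le
  rw [sq_abs, gc_self, div_pow]
  have h1 : 0 < 1 - esq z := by have : esq z < 1 := hz; linarith
  have h7 : (ip v z).re ^ 2 ≤ Complex.normSq (ip v z) := by
    rw [Complex.normSq_apply]; nlinarith [sq_nonneg (ip v z).im]
  have h8 : (ip v z).re ^ 2 / (1 - esq z) ^ 2 ≤ Qc (n + 1) (esq z) * Complex.normSq (ip v z) := by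
    unfold Qc
    rw [div_mul_eq_mul_div]
    apply div_le_div_of_nonneg_right _ (by positivity)
    have := N1 n
    nlinarith [Complex.normSq_nonneg (ip v z)]
  have h9 := mul_nonneg (Pc_pos (N1 n) hc (show esq z < 1 from hz)).le (sq_nonneg' v)
  linarith

lemma LL_lip (hc : 0 ≤ c) (p q : Cn n) :
    ENNReal.ofReal |LL q - LL p| ≤ rdist (unitBall n) (gc n c) p q :=
  lip' (fun _ hz => HD_LL hz) (fun _ hz v => LL_bound hc hz v) p q

lemma sq_le_gc (hc : 0 ≤ c) {z : Cn n} (hz : z ∈ unitBall n) (v : Cn n) :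
    esq v ≤ 2 * gc n c z v v := by
  rw [gc_self]
  have h1 := Pc_ge (N1 n) hc (sq_nonneg' z) (show esq z < 1 from hz)
  have h2 := mul_nonneg (Qc_pos (N1 n) (show esq z < 1 from hz)).le (Complex.normSq_nonneg (ip v z))
  have h3 := sq_nonneg' v
  nlinarith

lemma coord_bound' (hc : 0 ≤ c) {z : Cn n} (hz : z ∈ unitBall n) (v : Cn n) (a : Fin n) :
    |(v a).re / 2| ≤ Real.sqrt (gc n c z v v) ∧ |(v a).im / 2| ≤ Real.sqrt (gc n c z v v) := by
  have h := sq_le_gc hc hz v
  have h1 : Complex.normSq (v a) ≤ esq v :=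
    Finset.single_le_sum (fun a _ => Complex.normSq_nonneg (v a)) (Finset.mem_univ a)
  have h2 := gc_nonneg hc hz v
  rw [Complex.normSq_apply] at h1
  constructor
  · apply Real.le_sqrt_of_sq_le
    rw [sq_abs]; nlinarith [sq_nonneg (v a).im, sq_nonneg (v a).re]
  · apply Real.le_sqrt_of_sq_le
    rw [sq_abs]; nlinarith [sq_nonneg (v a).im, sq_nonneg (v a).re]

lemma coord_lip' (hc : 0 ≤ c) (a : Fin n) (p q : Cn n) :
    ENNReal.ofReal (‖q a - p a‖ / 4) ≤ rdist (unitBall n) (gc n c) p q := by
  have h1 : ENNReal.ofReal |(q a).re / 2 - (p a).re / 2| ≤ rdist (unitBall n) (gc n c) p q :=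
    lip' (F := fun y : Cn n => (y a).re / 2) (D := fun _ v => (v a).re / 2)
      (fun z _ => HD.of_linear (z := z) ({
        toFun := fun y : Cn n => (y a).re / 2
        map_add' := fun x y => by simp [add_div]
        map_smul' := fun c x => by simp [mul_div_assoc] } : Cn n →ₗ[ℝ] ℝ))
      (fun z hz v => (coord_bound' hc hz v a).1) p q
  have h2 : ENNReal.ofReal |(q a).im / 2 - (p a).im / 2| ≤ rdist (unitBall n) (gc n c) p q :=
    lip' (F := fun y : Cn n => (y a).im / 2) (D := fun _ v => (v a).im / 2)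
      (fun z _ => HD.of_linear (z := z) ({
        toFun := fun y : Cn n => (y a).im / 2
        map_add' := fun x y => by simp [add_div]
        map_smul' := fun c x => by simp [mul_div_assoc] } : Cn n →ₗ[ℝ] ℝ))
      (fun z hz v => (coord_bound' hc hz v a).2) p q
  have h3 : ‖q a - p a‖ / 4 ≤ max |(q a).re / 2 - (p a).re / 2| |(q a).im / 2 - (p a).im / 2| := by
    have := Complex.norm_le_abs_re_add_abs_im (q a - p a)
    have e1 : |(q a).re / 2 - (p a).re / 2| = |(q a - p a).re| / 2 := by
      rw [Complex.sub_re, ← sub_div, abs_div]; norm_num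
    have e2 : |(q a).im / 2 - (p a).im / 2| = |(q a - p a).im| / 2 := by
      rw [Complex.sub_im, ← sub_div, abs_div]; norm_num
    rw [e1, e2]
    rcases le_total (|(q a - p a).re| / 2) (|(q a - p a).im| / 2) with h | h
    · rw [max_eq_right h]; linarith
    · rw [max_eq_left h]; linarith
  refine (ENNReal.ofReal_le_ofReal h3).trans ?_
  rcases le_total |(q a).re / 2 - (p a).re / 2| |(q a).im / 2 - (p a).im / 2| with h | h
  · rw [max_eq_right h]; exact h2
  · rw [max_eq_left h]; exact h1

/-- Upper bound for the metric. -/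
noncomputable def upb (n : ℕ) (c : ℝ) (z : Cn n) : ℝ :=
  Pc (n + 1) c (esq z) + |Qc (n + 1) (esq z)| * esq z

lemma gc_le {z : Cn n} (v : Cn n) : gc n c z v v ≤ upb n c z * esq v := by
  unfold upb
  rw [gc_self]
  have := normSq_ip_le v z
  have h0 := Complex.normSq_nonneg (ip v z)
  have h1 : Qc (n + 1) (esq z) * Complex.normSq (ip v z) ≤ |Qc (n + 1) (esq z)| * (esq v * esq z) := by
    calc _ ≤ |Qc (n + 1) (esq z)| * Complex.normSq (ip v z) :=
          mul_le_mul_of_nonneg_right (le_abs_self _) h0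
      _ ≤ _ := mul_le_mul_of_nonneg_left this (abs_nonneg _)
  nlinarith

lemma continuousOn_upb : ContinuousOn (upb n c) (unitBall n) := by
  unfold upb
  exact (cdo_comp contDiffOn_Pc).continuousOn.add
    ((cdo_comp contDiffOn_Qc).continuousOn.abs.mul continuous_sq.continuousOn)

lemma rdist_seg {p q : Cn n} {b : ℝ}
    (h : ∀ t ∈ Icc (0 : ℝ) 1, p + t • (q - p) ∈ unitBall n ∧ upb n c (p + t • (q - p)) ≤ b) :
    rdist (unitBall n) (gc n c) p q ≤ ENNReal.ofReal (Real.sqrt (b * esq (q - p))) := by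
  have hd : ∀ t : ℝ, HasDerivAt (fun t : ℝ => p + t • (q - p)) (q - p) t := by
    intro t
    simpa using ((hasDerivAt_id t).smul_const (q - p)).const_add p
  have hγ : ContDiff ℝ 1 (fun t : ℝ => p + t • (q - p)) :=
    contDiff_const.add (contDiff_id.smul contDiff_const)
  have hder : deriv (fun t : ℝ => p + t • (q - p)) = fun _ => q - p := by
    funext t; exact (hd t).deriv
  unfold rdist
  refine (iInf₂_le (fun t : ℝ => p + t • (q - p)) ⟨hγ, fun t ht => (h t ht).1, by simp,
    by simp⟩).trans (ENNReal.ofReal_le_ofReal ?_)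
  unfold curveLength
  rw [hder]
  have hc : ContinuousOn (fun t : ℝ => Real.sqrt (gc n c (p + t • (q - p)) (q - p) (q - p)))
      (Icc 0 1) := by
    have := cont_speed (c := c) hγ (fun t ht => (h t ht).1)
    rw [hder] at this
    exact this
  have := intervalIntegral.integral_mono_on (a := 0) (b := 1) (μ := volume) zero_le_one
    (f := fun t : ℝ => Real.sqrt (gc n c (p + t • (q - p)) (q - p) (q - p)))
    (g := fun _ => Real.sqrt (b * esq (q - p)))
    (hc.intervalIntegrable_of_Icc zero_le_one) intervalIntegrable_const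
    (fun t ht => Real.sqrt_le_sqrt ((gc_le _).trans
      (mul_le_mul_of_nonneg_right (h t ht).2 (sq_nonneg' _))))
  simpa using this

lemma gc_complete (hc : 0 ≤ c) : IsCompleteMetric (unitBall n) (gc n c) := by
  intro x hx hC
  have hcau : CauchySeq x := by
    rw [Metric.cauchySeq_iff]
    intro ε hε
    obtain ⟨N, hN⟩ := hC (ENNReal.ofReal (ε / 8)) (by simpa using by positivity)
    refine ⟨N, fun j hj k hk => ?_⟩
    rw [dist_pi_lt_iff hε]
    intro a
    have h1 := (coord_lip' hc a (x j) (x k)).trans_lt (hN j hj k hk)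
    rw [ENNReal.ofReal_lt_ofReal_iff (by positivity)] at h1
    rw [dist_comm, dist_eq_norm]
    linarith
  obtain ⟨y, hy⟩ := cauchySeq_tendsto_of_complete hcau
  have hymem : y ∈ unitBall n := by
    obtain ⟨N, hN⟩ := hC (ENNReal.ofReal 1) (by simp)
    have h1 : ∀ k ≥ N, |LL (x k) - LL (x N)| < 1 := by
      intro k hk
      have := (LL_lip hc (x N) (x k)).trans_lt (hN N le_rfl k hk)
      rwa [ENNReal.ofReal_lt_ofReal_iff one_pos] at this
    set M := LL (x N)
    have h2 : ∀ k ≥ N, esq (x k) ∈ Iic (1 - Real.exp (-(2 * (M + 1)))) := by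
      intro k hk
      have h3 := abs_lt.1 (h1 k hk)
      have hu : 0 < 1 - esq (x k) := by have : esq (x k) < 1 := hx k; linarith
      have e2 : 1 - esq (x k) = Real.exp (-(2 * LL (x k))) := by
        unfold LL
        rw [show -(2 * (-Real.log (1 - esq (x k)) / 2)) = Real.log (1 - esq (x k)) by ring,
          Real.exp_log hu]
      have : Real.exp (-(2 * (M + 1))) ≤ Real.exp (-(2 * LL (x k))) :=
        Real.exp_le_exp.2 (by linarith)
      show esq (x k) ≤ _
      linarith
    have h3 : esq y ∈ Iic (1 - Real.exp (-(2 * (M + 1)))) := by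
      apply isClosed_Iic.mem_of_tendsto ((continuous_sq.tendsto y).comp hy)
      filter_upwards [eventually_ge_atTop N] with k hk using h2 k hk
    have h4 : esq y ≤ 1 - Real.exp (-(2 * (M + 1))) := h3
    have := Real.exp_pos (-(2 * (M + 1)))
    show esq y < 1
    linarith
  refine ⟨y, hymem, ?_⟩
  have hopen : IsOpen {z | z ∈ unitBall n ∧ upb n c z < upb n c y + 1} := by
    have := (continuousOn_upb (c := c)).isOpen_inter_preimage (isOpen_ball' (n := n))
      (isOpen_Iio (a := upb n c y + 1))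
    exact this
  obtain ⟨δ, hδ, hball⟩ := Metric.isOpen_iff.1 hopen y ⟨hymem, by simp⟩
  have hup : ∀ᶠ k in atTop, rdist (unitBall n) (gc n c) (x k) y
      ≤ ENNReal.ofReal (Real.sqrt ((upb n c y + 1) * esq (y - x k))) := by
    filter_upwards [Metric.tendsto_nhds.1 hy δ hδ] with k hk
    apply rdist_seg
    intro t ht
    have hmem : x k + t • (y - x k) ∈ Metric.ball y δ := by
      have h1 : x k + t • (y - x k) = (1 - t) • x k + t • y := by
        rw [smul_sub, sub_smul, one_smul]; abel
      rw [h1]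
      exact (convex_ball y δ) (by simpa using hk) (Metric.mem_ball_self hδ)
        (by linarith [ht.2]) ht.1 (by ring)
    have := hball hmem
    exact ⟨this.1, this.2.le⟩
  have hlim : Tendsto (fun k => ENNReal.ofReal (Real.sqrt ((upb n c y + 1) * esq (y - x k)))) atTop
      (𝓝 0) := by
    have h1 : Tendsto (fun k => esq (y - x k)) atTop (𝓝 (esq (y - y))) :=
      (continuous_sq.tendsto _).comp (tendsto_const_nhds.sub hy)
    have h2 : Tendsto (fun k => Real.sqrt ((upb n c y + 1) * esq (y - x k))) atTop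
        (𝓝 (Real.sqrt ((upb n c y + 1) * esq (y - y)))) :=
      (Real.continuous_sqrt.tendsto _).comp (tendsto_const_nhds.mul h1)
    have h3 := ENNReal.tendsto_ofReal h2
    simpa using h3
  exact tendsto_of_tendsto_of_tendsto_of_le_of_le' tendsto_const_nhds hlim
    (Eventually.of_forall fun _ => bot_le) hup

end Pool.Agent.H143Z.KE
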