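import Mathlib
import Pool.Agent.H143Z.KE.Dist

set_option autoImplicit false

namespace Pool.Agent.H143Z.KE

open Pool.Agent.Helper206.Bottom
open Set MeasureTheory Filter
open scoped Topology ContDiff ComplexConjugate ENNReal

variable {n : ℕ} {c : ℝ}

lemma gc_cs (hc : 0 ≤ c) {z : Cn n} (hz : z ∈ unitBall n) (v w : Cn n) (hv : v ≠ 0) :
    (gc n c z w v) ^ 2 / gc n c z v v ≤ gc n c z w w := by
  have hpos : 0 < gc n c z v v := (gc_kahler hc).pos z hz v hv
  rw [div_le_iff₀ hpos]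
  have h := gc_nonneg hc hz (w + (-(gc n c z w v / gc n c z v v)) • v)
  unfold gc at h hpos ⊢
  rw [gmet_sub_smul] at h
  set a := gmet (Pc (n + 1) c) (Qc (n + 1)) z w w
  set b := gmet (Pc (n + 1) c) (Qc (n + 1)) z w v
  set d := gmet (Pc (n + 1) c) (Qc (n + 1)) z v v
  have e : a + 2 * -(b / d) * b + (-(b / d)) ^ 2 * d = (a * d - b ^ 2) / d := by
    field_simp; ring
  rw [e] at h
  have := (div_nonneg_iff.1 h)
  rcases this with h | h
  · linarith [h.1]
  · linarith [h.2]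

lemma gradSq_le' (hc : 0 ≤ c) {z : Cn n} (hz : z ∈ unitBall n) {φ : Cn n → ℝ} {w : Cn n}
    (hw : ∀ v, gc n c z w v = fderiv ℝ φ z v) (v : Cn n) :
    (fderiv ℝ φ z v) ^ 2 / gc n c z v v ≤ gc n c z w w := by
  by_cases hv : v = 0
  · subst hv
    simp only [map_zero]
    simpa using gc_nonneg hc hz w
  · rw [← hw]; exact gc_cs hc hz v w hv

lemma gradSq_eq' (hc : 0 ≤ c) {z : Cn n} (hz : z ∈ unitBall n) {φ : Cn n → ℝ} {w : Cn n}
    (hw : ∀ v, gc n c z w v = fderiv ℝ φ z v) : gradSq (gc n c) φ z = gc n c z w w := by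
  unfold gradSq
  apply le_antisymm
  · exact ciSup_le fun v => gradSq_le' hc hz hw v
  · refine le_ciSup_of_le ⟨gc n c z w w, ?_⟩ w ?_
    · rintro _ ⟨v, rfl⟩; exact gradSq_le' hc hz hw v
    · rw [← hw]
      by_cases h : gc n c z w w = 0
      · rw [h]; simp
      · rw [pow_two, mul_div_assoc, div_self h, mul_one]

/-- Riemannian gradient. -/
noncomputable def rgc (n : ℕ) (c : ℝ) (φ : Cn n → ℝ) (z : Cn n) : Cn n :=
  ((1 / Pc (n + 1) c (esq z) : ℝ) : ℂ) • (gr φ z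
    - (((Qc (n + 1) (esq z) / (Pc (n + 1) c (esq z) + esq z * Qc (n + 1) (esq z)) : ℝ) : ℂ)
      * ip (gr φ z) z) • z)

lemma PQ_pos (hc : 0 ≤ c) {z : Cn n} (hz : z ∈ unitBall n) :
    0 < Pc (n + 1) c (esq z) + esq z * Qc (n + 1) (esq z) := by
  rw [PQ_eq hz]; exact Bc_pos (N1 n) hc hz

lemma rgc_spec (hc : 0 ≤ c) {z : Cn n} (hz : z ∈ unitBall n) (φ : Cn n → ℝ) (v : Cn n) :
    gc n c z (rgc n c φ z) v = fderiv ℝ φ z v := by
  rw [fderiv_eq_gr]
  unfold gc gmet rgc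
  have h1 : (Pc (n + 1) c (esq z) : ℂ) ≠ 0 := by exact_mod_cast (Pc_pos (N1 n) hc hz).ne'
  have h2 : ((Pc (n + 1) c (esq z) : ℂ) + esq z * Qc (n + 1) (esq z)) ≠ 0 := by
    exact_mod_cast (PQ_pos hc hz).ne'
  congr 1
  simp only [ip_smul_left, ip_sub_left, ip_self]
  push_cast
  exact alg_aux _ _ _ _ _ _ _ h1 h2 rfl

lemma gradSq_form (hc : 0 ≤ c) {z : Cn n} (hz : z ∈ unitBall n) (φ : Cn n → ℝ) :
    gradSq (gc n c) φ z = (1 / Pc (n + 1) c (esq z)) * (esq (gr φ z)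
      - Qc (n + 1) (esq z) / (Pc (n + 1) c (esq z) + esq z * Qc (n + 1) (esq z))
        * Complex.normSq (ip (gr φ z) z)) := by
  rw [gradSq_eq' hc hz (rgc_spec hc hz φ), rgc_spec hc hz φ, fderiv_eq_gr]
  unfold rgc
  rw [← ip_conj, Complex.conj_re, ip_smul_left, ip_sub_left, ip_smul_left, Complex.re_ofReal_mul,
    ip_self, Complex.sub_re, Complex.ofReal_re, mul_assoc, Complex.re_ofReal_mul,
    ← ip_conj (gr φ z) z, Complex.mul_conj, Complex.ofReal_re]

lemma contOn_gradSq (hc : 0 ≤ c) {φ : Cn n → ℝ} (hφ : ContDiff ℝ ∞ φ) :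
    ContinuousOn (gradSq (gc n c) φ) (unitBall n) := by
  have h1 : ContinuousOn (fun z => (1 / Pc (n + 1) c (esq z)) * (esq (gr φ z)
      - Qc (n + 1) (esq z) / (Pc (n + 1) c (esq z) + esq z * Qc (n + 1) (esq z))
        * Complex.normSq (ip (gr φ z) z))) (unitBall n) := by
    have hP : ContinuousOn (fun z : Cn n => Pc (n + 1) c (esq z)) (unitBall n) :=
      (cdo_comp contDiffOn_Pc).continuousOn
    have hQ : ContinuousOn (fun z : Cn n => Qc (n + 1) (esq z)) (unitBall n) :=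
      (cdo_comp contDiffOn_Qc).continuousOn
    have hs : ContinuousOn (esq : Cn n → ℝ) (unitBall n) := continuous_sq.continuousOn
    apply ContinuousOn.mul
    · exact continuousOn_const.div hP fun z hz => (Pc_pos (N1 n) hc hz).ne'
    · apply ContinuousOn.sub
      · exact (continuous_sq.comp (continuous_gr hφ)).continuousOn
      · apply ContinuousOn.mul
        · exact hQ.div (hP.add (hs.mul hQ)) fun z hz => (PQ_pos hc hz).ne'
        · exact (Complex.continuous_normSq.comp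
            (continuous_ip (continuous_gr hφ) continuous_id)).continuousOn
  exact h1.congr fun z hz => gradSq_form hc hz φ

lemma gc_z_left {z : Cn n} (hz : z ∈ unitBall n) (v : Cn n) :
    gc n c z z v = Bc (n + 1) c (esq z) * (ip v z).re := by
  rw [← PQ_eq hz]
  unfold gc gmet
  rw [ip_self, ip_symm_re v z |>.symm, ← Complex.re_ofReal_mul]
  congr 1
  push_cast
  ring

/-- completing the square -/
lemma radial_le (hc : 0 ≤ c) {z : Cn n} (hz : z ∈ unitBall n) (φ : Cn n → ℝ) (k : ℝ) :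
    2 * k * fderiv ℝ φ z z - k ^ 2 * (esq z * Bc (n + 1) c (esq z)) ≤ gradSq (gc n c) φ z := by
  have h := gc_nonneg hc hz (rgc n c φ z + (-k) • z)
  rw [gradSq_eq' hc hz (rgc_spec hc hz φ)]
  have e1 := rgc_spec hc hz φ z
  have e2 := gc_z_left (c := c) hz z
  rw [ip_self, Complex.ofReal_re] at e2
  unfold gc at h e1 e2 ⊢
  rw [gmet_sub_smul, e1, e2] at h
  linarith

/-- gradient of a radial function -/
lemma gradSq_radial (hc : 0 ≤ c) {z : Cn n} (hz : z ∈ unitBall n) {φ : Cn n → ℝ} {a : ℝ}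
    (h : ∀ v, fderiv ℝ φ z v = a * (2 * (ip v z).re)) :
    gradSq (gc n c) φ z = 4 * a ^ 2 * esq z / Bc (n + 1) c (esq z) := by
  have hB := Bc_pos (N1 n) hc (show esq z < 1 from hz)
  have key : ∀ v, gc n c z ((2 * a / Bc (n + 1) c (esq z)) • z) v = fderiv ℝ φ z v := by
    intro v
    rw [h]
    have := gc_z_left (c := c) hz v
    unfold gc at this ⊢
    rw [gmet_smul_left, this]
    field_simp
  rw [gradSq_eq' hc hz key, key, h, ip_rsmul_left, ip_self]
  simp only [Complex.mul_re, Complex.ofReal_re, Complex.ofReal_im]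
  field_simp
  ring

/-- volume density -/
noncomputable def dn (m : ℕ) (c s : ℝ) : ℝ := Pc (((m + 1 : ℕ) : ℝ) + 1) c s ^ m * Bc (((m + 1 : ℕ) : ℝ) + 1) c s

variable {m : ℕ}

lemma vol_gc (hc : 0 ≤ c) {z : Cn (m + 1)} (hz : z ∈ unitBall (m + 1)) :
    volDensity (gc (m + 1) c) z = dn m c (esq z) := by
  have hP := Pc_pos (N1 (m + 1)) hc (show esq z < 1 from hz)
  have h := volDensity_gmet _ _ z hP (PQ_pos hc hz)
  have e : volDensity (gc (m + 1) c) z
      = volDensity (gmet (Pc (((m + 1 : ℕ) : ℝ) + 1) c) (Qc (((m + 1 : ℕ) : ℝ) + 1))) z := rfl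
  rw [e, h, PQ_eq hz]
  unfold dn
  field_simp
  ring

lemma dn_pos (hc : 0 ≤ c) {s : ℝ} (hs : s < 1) : 0 < dn m c s :=
  mul_pos (pow_pos (Pc_pos (N1 _) hc hs) _) (Bc_pos (N1 _) hc hs)

lemma dn_ge (hc : 0 ≤ c) {s : ℝ} (h0 : 0 ≤ s) (hs : s < 1) : 1 ≤ dn m c s := by
  have h1 := Pc_ge (N1 (m + 1)) hc h0 hs
  have h2 := Bc_ge (N1 (m + 1)) hc h0 hs
  unfold dn
  have h3 : 1 ≤ Pc (((m + 1 : ℕ) : ℝ) + 1) c s ^ m := one_le_pow₀ (by linarith)
  nlinarith

lemma contOn_dn : ContinuousOn (fun z : Cn (m + 1) => dn m c (esq z)) (unitBall (m + 1)) :=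
  ((cdo_comp contDiffOn_Pc).continuousOn.pow m).mul (cdo_comp contDiffOn_Bc).continuousOn

/-- weight -/
noncomputable def Wt (m : ℕ) (c s : ℝ) : ℝ := Pc (((m + 1 : ℕ) : ℝ) + 1) c s ^ m / (1 - s)

/-- derivative of the weight -/
noncomputable def Wt' (m : ℕ) (c s : ℝ) : ℝ :=
  Pc (((m + 1 : ℕ) : ℝ) + 1) c s ^ m * (m * Ac (((m + 1 : ℕ) : ℝ) + 1) c s / (1 - s) + 1 / (1 - s) ^ 2)

lemma hasDerivAt_Wt (hc : 0 ≤ c) {s : ℝ} (hs : s < 1) : HasDerivAt (Wt m c) (Wt' m c s) s := by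
  have h : (1 - s) ≠ 0 := by linarith
  have h1 := ((hasDerivAt_Pc (N := ((m + 1 : ℕ) : ℝ) + 1) (c := c) hs).pow m).div (hd_t s) h
  refine HasDerivAt.congr_deriv h1 ?_
  have h2 := AP (N1 (m + 1)) hc hs
  have h3 : (m : ℝ) * Pc (((m + 1 : ℕ) : ℝ) + 1) c s ^ (m - 1) * Qc (((m + 1 : ℕ) : ℝ) + 1) s
      = m * Pc (((m + 1 : ℕ) : ℝ) + 1) c s ^ m * Ac (((m + 1 : ℕ) : ℝ) + 1) c s := by
    rw [← h2]
    rcases m with _ | k
    · simp
    · simp only [Nat.add_sub_cancel]; ring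
  simp only [Pi.pow_apply]
  rw [h3]
  unfold Wt'
  field_simp
  ring

lemma contDiffOn_Wt : ContDiffOn ℝ ∞ (Wt m c) (Iio 1) := by
  unfold Wt
  apply ContDiffOn.div (contDiffOn_Pc.pow m) (by fun_prop)
  intro s hs
  have : s < 1 := hs
  linarith

/-- the key scalar inequality -/
lemma key_ineq (hc : 0 ≤ c) (hc1 : c ≤ 1) {s : ℝ} (h0 : 0 ≤ s) (hs : s < 1) :
    ((m : ℝ) + 1) ^ 2 / (2 * (m + 2)) * dn m c s
      ≤ (m + 1) * (2 * s * Wt' m c s + 2 * (m + 1) * Wt m c s)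
        - (m + 1) ^ 2 * s * Pc (((m + 1 : ℕ) : ℝ) + 1) c s ^ m / (1 - s) ^ 2 := by
  have ht : 0 < 1 - s := by linarith
  have hP := pow_pos (Pc_pos (N1 (m + 1)) hc hs) m
  have hm : (0 : ℝ) ≤ m := Nat.cast_nonneg m
  unfold dn Wt' Wt Bc Ac
  set p := Pc (((m + 1 : ℕ) : ℝ) + 1) c s ^ m
  push_cast
  set t := 1 - s with htdef
  have hs' : s = 1 - t := by linarith
  have hD : 0 < (m : ℝ) + 1 + 1 + c * t := by positivity
  have e1 : ((m : ℝ) + 1) ^ 2 / (2 * (m + 2)) * (p * (2 * (m + 1 + 1 + c * t ^ 2) / t ^ 2))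
      = p * (m + 1) / t ^ 2 * ((m + 1) + (m + 1) * c * t ^ 2 / (m + 2)) := by
    field_simp
    ring
  have e2 : ((m : ℝ) + 1) * (2 * s * (p * (m * ((m + 1 + 1) / (t * (m + 1 + 1 + c * t))) / t + 1 / t ^ 2))
      + 2 * (m + 1) * (p / t)) - (m + 1) ^ 2 * s * p / t ^ 2
      = p * (m + 1) / t ^ 2 * (2 * s * (m * ((m + 2) / (m + 1 + 1 + c * t))) + 2 * s
        + 2 * (m + 1) * t - (m + 1) * s) := by
    field_simp
    ring
  rw [e1, e2]
  apply mul_le_mul_of_nonneg_left _ (by positivity)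
  have h1 : 1 - c * t / (m + 2) ≤ ((m : ℝ) + 2) / (m + 1 + 1 + c * t) := by
    rw [le_div_iff₀ hD]
    have : (1 - c * t / (m + 2)) * (m + 1 + 1 + c * t) = (m + 2) - (c * t) ^ 2 / (m + 2) := by
      field_simp; ring
    rw [this]
    have : 0 ≤ (c * t) ^ 2 / ((m : ℝ) + 2) := by positivity
    linarith
  have h2 : 2 * s * (m * (1 - c * t / (m + 2))) ≤ 2 * s * (m * (((m : ℝ) + 2) / (m + 1 + 1 + c * t))) := by
    gcongr
  have h3 : ((m : ℝ) + 1) * c * t ^ 2 / (m + 2) + 2 * s * m * (c * t / (m + 2)) ≤ (m + 1) * t := by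
    have : ((m : ℝ) + 1) * c * t ^ 2 / (m + 2) + 2 * s * m * (c * t / (m + 2))
        = t * (c * ((m + 1) * t + 2 * s * m)) / (m + 2) := by field_simp
    rw [this, div_le_iff₀ (by positivity)]
    have h4 : ((m : ℝ) + 1) * t + 2 * s * m ≤ (m + 1) * (m + 2) := by
      have : t ≤ 1 := by linarith
      nlinarith [mul_nonneg hm hm, mul_nonneg hm ht.le]
    have h5 : c * (((m : ℝ) + 1) * t + 2 * s * m) ≤ (m + 1) * (m + 2) := by
      have : 0 ≤ ((m : ℝ) + 1) * t + 2 * s * m := by positivity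
      nlinarith
    nlinarith
  nlinarith

variable {φ : Cn (m + 1) → ℝ}

lemma cd_Phi (h1 : ContDiff ℝ ∞ φ) (hX : tsupport φ ⊆ unitBall (m + 1)) :
    ContDiff ℝ 1 (fun z => φ z ^ 2 * Wt m c (esq z)) := by
  rw [contDiff_iff_contDiffAt]
  intro z
  by_cases hz : z ∈ tsupport φ
  · have hP : ContDiffOn ℝ ∞ (fun z : Cn (m + 1) => Wt m c (esq z)) (unitBall (m + 1)) :=
      cdo_comp contDiffOn_Wt
    have := (h1.contDiffOn (s := unitBall (m + 1))).pow 2 |>.mul hP
    exact (this.contDiffAt (isOpen_ball'.mem_nhds (hX hz))).of_le (by norm_cast)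
  · have := eventually_zero hz
    have e : (fun z => φ z ^ 2 * Wt m c (esq z)) =ᶠ[𝓝 z] fun _ => 0 := by
      filter_upwards [this] with y hy
      rw [hy]; simp
    exact (contDiffAt_const (c := (0:ℝ))).congr_of_eventuallyEq e

lemma hcs_Phi' (h2 : HasCompactSupport φ) :
    HasCompactSupport (fun z => φ z ^ 2 * Wt m c (esq z)) := by
  apply HasCompactSupport.mul_right
  have := h2.comp_left (g := fun x : ℝ => x ^ 2) (by simp)
  exact this

lemma integrand_eq' (hc : 0 ≤ c) (h1 : ContDiff ℝ ∞ φ) (hX : tsupport φ ⊆ unitBall (m + 1))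
    (z : Cn (m + 1)) :
    fderiv ℝ (fun z => φ z ^ 2 * Wt m c (esq z)) z z
        + 2 * ((m + 1 : ℕ) : ℝ) * (φ z ^ 2 * Wt m c (esq z))
      = 2 * (φ z * fderiv ℝ φ z z * Wt m c (esq z))
        + φ z ^ 2 * (2 * esq z * Wt' m c (esq z) + 2 * (m + 1) * Wt m c (esq z)) := by
  by_cases hz : z ∈ tsupport φ
  · have hzX := hX hz
    have hφ : HD φ (fun x => fderiv ℝ φ z x) z :=
      HD.of_differentiableAt (h1.differentiable (by simp) z)
    have hW := (HD_sq z).comp (hasDerivAt_Wt (m := m) hc hzX)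
    have h := (hφ.mulR hφ).mulR hW
    have e : (fun z => φ z ^ 2 * Wt m c (esq z)) = fun z => φ z * φ z * Wt m c (esq z) := by
      funext z; ring
    rw [e, h.fderiv z, ip_self, Complex.ofReal_re]
    push_cast
    ring
  · have h0 := eventually_zero hz
    have hz0 : φ z = 0 := h0.self_of_nhds
    have e : (fun z => φ z ^ 2 * Wt m c (esq z)) =ᶠ[𝓝 z] fun _ => 0 := by
      filter_upwards [h0] with y hy
      rw [hy]; simp
    rw [e.fderiv_eq, hz0]
    simp

lemma intOn_of {F : Cn n → ℝ} {K : Set (Cn n)} (hK : IsCompact K) (hKX : K ⊆ unitBall n)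
    (hF : ContinuousOn F (unitBall n)) (h0 : ∀ z ∈ unitBall n, z ∉ K → F z = 0) :
    IntegrableOn F (unitBall n) := by
  have h1 : IntegrableOn F K := (hF.mono hKX).integrableOn_compact hK
  have h2 : IntegrableOn F (unitBall n \ K) :=
    integrableOn_zero.congr_fun
      (fun z hz => (h0 z hz.1 hz.2).symm) (isOpen_ball'.measurableSet.diff hK.measurableSet)
  have h3 := h1.union h2
  rwa [union_diff_cancel hKX] at h3

section
variable (h1 : ContDiff ℝ ∞ φ) (h2 : HasCompactSupport φ) (hX : tsupport φ ⊆ unitBall (m + 1))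
include h1 h2 hX

lemma int_phi2' : IntegrableOn (fun z => φ z ^ 2 * dn m c (esq z)) (unitBall (m + 1)) := by
  refine intOn_of h2 hX ((h1.continuous.pow 2).continuousOn.mul contOn_dn) ?_
  intro z _ hz; rw [phi_zero hz]; simp

lemma int_grad' (hc : 0 ≤ c) :
    IntegrableOn (fun z => gradSq (gc (m + 1) c) φ z * dn m c (esq z)) (unitBall (m + 1)) := by
  refine intOn_of h2 hX ((contOn_gradSq hc h1).mul contOn_dn) ?_
  intro z hz hz'
  rw [gradSq_form hc hz]
  have : gr φ z = 0 := by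
    funext b; simp [gr, fderiv_zero_of hz']
  rw [this]; simp

lemma cross_id (hc : 0 ≤ c) :
    IntegrableOn (fun z => 2 * (φ z * fderiv ℝ φ z z * Wt m c (esq z))
        + φ z ^ 2 * (2 * esq z * Wt' m c (esq z) + 2 * (m + 1) * Wt m c (esq z)))
        (unitBall (m + 1)) ∧
    ∫ z in unitBall (m + 1), (2 * (φ z * fderiv ℝ φ z z * Wt m c (esq z))
        + φ z ^ 2 * (2 * esq z * Wt' m c (esq z) + 2 * (m + 1) * Wt m c (esq z))) = 0 := by
  have hΦ := cd_Phi (c := c) h1 hX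
  have hcs := hcs_Phi' (c := c) h2
  have he := integral_euler hΦ hcs
  have hD : Continuous fun z => fderiv ℝ (fun z => φ z ^ 2 * Wt m c (esq z)) z z :=
    (hΦ.continuous_fderiv one_ne_zero).clm_apply continuous_id
  have hDc : HasCompactSupport fun z => fderiv ℝ (fun z => φ z ^ 2 * Wt m c (esq z)) z z := by
    apply HasCompactSupport.intro' hcs (isClosed_tsupport _)
    intro z hz
    have := (notMem_tsupport_iff_eventuallyEq.1 hz).fderiv_eq (𝕜 := ℝ)
    rw [this]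
    simp
  have hI : Integrable fun z => (fderiv ℝ (fun z => φ z ^ 2 * Wt m c (esq z)) z z
      + 2 * ((m + 1 : ℕ) : ℝ) * (φ z ^ 2 * Wt m c (esq z))) :=
    (hD.integrable_of_hasCompactSupport hDc).add
      ((hΦ.continuous.integrable_of_hasCompactSupport hcs).const_mul _)
  have hi : ∫ z, (fderiv ℝ (fun z => φ z ^ 2 * Wt m c (esq z)) z z
      + 2 * ((m + 1 : ℕ) : ℝ) * (φ z ^ 2 * Wt m c (esq z))) = 0 := by
    rw [integral_add (hD.integrable_of_hasCompactSupport hDc)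
      ((hΦ.continuous.integrable_of_hasCompactSupport hcs).const_mul _), integral_const_mul, he]
    ring
  simp only [integrand_eq' hc h1 hX] at hi hI
  refine ⟨hI.integrableOn, ?_⟩
  rw [← hi]
  apply setIntegral_eq_integral_of_forall_compl_eq_zero
  intro z hz
  have : z ∉ tsupport φ := fun h => hz (hX h)
  rw [phi_zero this]; simp

lemma lower_bd (hc : 0 ≤ c) (hc1 : c ≤ 1) :
    ((m : ℝ) + 1) ^ 2 / (2 * (m + 2)) * ∫ z in unitBall (m + 1), φ z ^ 2 * volDensity (gc (m + 1) c) z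
    ≤ ∫ z in unitBall (m + 1), gradSq (gc (m + 1) c) φ z * volDensity (gc (m + 1) c) z := by
  have hm := isOpen_ball' (n := m + 1).measurableSet
  have e1 : ∫ z in unitBall (m + 1), φ z ^ 2 * volDensity (gc (m + 1) c) z
      = ∫ z in unitBall (m + 1), φ z ^ 2 * dn m c (esq z) :=
    setIntegral_congr_fun hm fun z hz => by simp only [vol_gc hc hz]
  have e2 : ∫ z in unitBall (m + 1), gradSq (gc (m + 1) c) φ z * volDensity (gc (m + 1) c) z
      = ∫ z in unitBall (m + 1), gradSq (gc (m + 1) c) φ z * dn m c (esq z) :=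
    setIntegral_congr_fun hm fun z hz => by simp only [vol_gc hc hz]
  rw [e1, e2]
  obtain ⟨i2, hcr⟩ := cross_id h1 h2 hX hc
  have i1 := int_phi2' (c := c) h1 h2 hX
  have i4 := int_grad' h1 h2 hX hc
  have i5 : IntegrableOn (fun z => ((m : ℝ) + 1) ^ 2 / (2 * (m + 2)) * (φ z ^ 2 * dn m c (esq z)))
      (unitBall (m + 1)) := i1.const_mul _
  have i6 := i2.const_mul ((m : ℝ) + 1)
  have k2 := setIntegral_mono_on (i5.sub i6) i4 hm (by
    intro z hz
    have hz1 : esq z < 1 := hz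
    have ht : 0 < 1 - esq z := by linarith
    have hB := Bc_pos (N1 (m + 1)) hc hz1
    have hP := pow_pos (Pc_pos (N1 (m + 1)) hc hz1) m
    have k := radial_le hc hz φ (-((m + 1) * φ z / ((1 - esq z) * Bc (((m + 1 : ℕ) : ℝ) + 1) c (esq z))))
    have k' := mul_le_mul_of_nonneg_right k (dn_pos (m := m) hc hz1).le
    refine le_trans ?_ k'
    have k3 := mul_le_mul_of_nonneg_left (key_ineq (m := m) hc hc1 (sq_nonneg' z) hz1)
      (sq_nonneg (φ z))
    have e : (2 * -((m + 1) * φ z / ((1 - esq z) * Bc (((m + 1 : ℕ) : ℝ) + 1) c (esq z))) * fderiv ℝ φ z z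
        - (-((m + 1) * φ z / ((1 - esq z) * Bc (((m + 1 : ℕ) : ℝ) + 1) c (esq z)))) ^ 2
          * (esq z * Bc (((m + 1 : ℕ) : ℝ) + 1) c (esq z))) * dn m c (esq z)
        = -((m + 1) * (2 * (φ z * fderiv ℝ φ z z * Wt m c (esq z))))
          - φ z ^ 2 * ((m + 1) ^ 2 * esq z * Pc (((m + 1 : ℕ) : ℝ) + 1) c (esq z) ^ m / (1 - esq z) ^ 2) := by
      unfold dn Wt
      field_simp
    rw [e]
    simp only [Pi.sub_apply]
    nlinarith)
  simp only [Pi.sub_apply] at k2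
  rw [integral_sub i5 i6, integral_const_mul, integral_const_mul, hcr, mul_zero, sub_zero] at k2
  exact k2

lemma phi2_pos' (hc : 0 ≤ c) (h0 : φ ≠ 0) :
    0 < ∫ z in unitBall (m + 1), φ z ^ 2 * volDensity (gc (m + 1) c) z := by
  have hm := isOpen_ball' (n := m + 1).measurableSet
  have e1 : ∫ z in unitBall (m + 1), φ z ^ 2 * volDensity (gc (m + 1) c) z
      = ∫ z in unitBall (m + 1), φ z ^ 2 * dn m c (esq z) :=
    setIntegral_congr_fun hm fun z hz => by simp only [vol_gc hc hz]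
  rw [e1, setIntegral_pos_iff_support_of_nonneg_ae _ (int_phi2' h1 h2 hX)]
  · have hsub : Function.support φ
        ⊆ Function.support (fun z => φ z ^ 2 * dn m c (esq z)) ∩ unitBall (m + 1) := by
      intro z hz
      have hzX := hX (subset_tsupport φ hz)
      exact ⟨mul_ne_zero (pow_ne_zero 2 hz) (dn_pos hc hzX).ne', hzX⟩
    refine lt_of_lt_of_le ?_ (measure_mono hsub)
    exact IsOpen.measure_pos volume (h1.continuous.isOpen_support)
      (Function.support_nonempty_iff.2 h0)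
  · filter_upwards [ae_restrict_mem hm] with z hz
    exact mul_nonneg (sq_nonneg _) (dn_pos hc hz).le

end

end Pool.Agent.H143Z.KE
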