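import Mathlib
import Pool.Agent.H143Z.KE.Low

set_option autoImplicit false

namespace Pool.Agent.H143Z.KE

open Pool.Agent.Helper206.Bottom
open Set MeasureTheory Filter
open scoped Topology ContDiff ComplexConjugate ENNReal Pointwise

variable {n m : ℕ}

/-- cut-off -/
noncomputable def chi (x : ℝ) : ℝ := Real.smoothTransition (2 * x - 1)

lemma chi_cd : ContDiff ℝ ∞ chi :=
  Real.smoothTransition.contDiff.comp (by fun_prop)

lemma chi_zero {x : ℝ} (h : x ≤ 1 / 2) : chi x = 0 :=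
  Real.smoothTransition.zero_of_nonpos (by linarith)

lemma chi_one {x : ℝ} (h : 1 ≤ x) : chi x = 1 :=
  Real.smoothTransition.one_of_one_le (by linarith)

lemma chi_nonneg (x : ℝ) : 0 ≤ chi x := Real.smoothTransition.nonneg _
lemma chi_le (x : ℝ) : chi x ≤ 1 := Real.smoothTransition.le_one _

lemma dchi_lt {x : ℝ} (h : x < 1 / 2) : deriv chi x = 0 := by
  have : chi =ᶠ[𝓝 x] fun _ => 0 := by
    filter_upwards [Iio_mem_nhds h] with y hy using chi_zero (le_of_lt hy)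
  rw [this.deriv_eq]; simp

lemma dchi_gt {x : ℝ} (h : 1 < x) : deriv chi x = 0 := by
  have : chi =ᶠ[𝓝 x] fun _ => 1 := by
    filter_upwards [Ioi_mem_nhds h] with y hy using chi_one (le_of_lt hy)
  rw [this.deriv_eq]; simp

lemma dchi_bd : ∃ M : ℝ, 0 ≤ M ∧ ∀ x ∈ Icc (1 / 2 : ℝ) 1, |deriv chi x| ≤ M := by
  have h : Continuous (deriv chi) := chi_cd.continuous_deriv (by simp)
  obtain ⟨M, hM⟩ := isCompact_Icc.exists_bound_of_continuousOn (s := Icc (1 / 2 : ℝ) 1)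
    h.continuousOn
  exact ⟨M, (norm_nonneg _).trans (hM 1 ⟨by norm_num, le_rfl⟩), fun x hx => hM x hx⟩

/-- radial profile of the test function -/
noncomputable def psi (a ε s : ℝ) : ℝ := (1 - s) ^ a * chi ((1 - s) / ε)

noncomputable def psi' (a ε s : ℝ) : ℝ :=
  -((1 - s) ^ a / (1 - s)) * (a * chi ((1 - s) / ε) + (1 - s) / ε * deriv chi ((1 - s) / ε))

lemma hd_psi {a ε s : ℝ} (hs : s < 1) : HasDerivAt (psi a ε) (psi' a ε s) s := by
  have ht : 0 < 1 - s := by linarith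
  have h1 := (hd_t s).rpow_const (p := a) (Or.inl ht.ne')
  have h2 : HasDerivAt (fun s => chi ((1 - s) / ε)) (deriv chi ((1 - s) / ε) * (-1 / ε)) s :=
    ((chi_cd.differentiable (by simp) _).hasDerivAt).comp s ((hd_t s).div_const ε)
  refine HasDerivAt.congr_deriv (h1.mul h2) ?_
  unfold psi'
  rw [Real.rpow_sub_one ht.ne']
  field_simp
  ring

/-- the test function -/
noncomputable def tf (n : ℕ) (a ε : ℝ) (z : Cn n) : ℝ := psi a ε (esq z)

lemma tf_zero {a ε : ℝ} (hε : 0 < ε) {z : Cn n} (h : 1 - ε / 2 ≤ esq z) : tf n a ε z = 0 := by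
  unfold tf psi
  rw [chi_zero, mul_zero]
  rw [div_le_iff₀ hε]; linarith

lemma tf_cd {a ε : ℝ} (hε : 0 < ε) : ContDiff ℝ ∞ (tf n a ε) := by
  rw [contDiff_iff_contDiffAt]
  intro z
  by_cases hz : esq z < 1
  · unfold tf psi
    have h1 : ContDiffAt ℝ ∞ (fun z : Cn n => 1 - esq z) z :=
      (contDiff_const.sub contDiff_sq).contDiffAt
    exact (h1.rpow_const_of_ne (by linarith)).mul
      (chi_cd.contDiffAt.comp z (h1.div_const ε))
  · have : tf n a ε =ᶠ[𝓝 z] fun _ => 0 := by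
      have ho : IsOpen {y : Cn n | 1 - ε / 2 < esq y} := isOpen_lt continuous_const continuous_sq
      filter_upwards [ho.mem_nhds (show 1 - ε / 2 < esq z by push Not at hz; linarith)] with y hy
      exact tf_zero hε (le_of_lt hy)
    exact (contDiffAt_const (c := (0:ℝ))).congr_of_eventuallyEq this

lemma sub_closedBall {ρ : ℝ} (hρ : ρ ≤ 1) :
    {z : Cn n | esq z ≤ ρ} ⊆ Metric.closedBall 0 1 := by
  intro z hz
  rw [mem_closedBall_zero_iff, pi_norm_le_iff_of_nonneg zero_le_one]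
  intro a
  have h1 : Complex.normSq (z a) ≤ esq z :=
    Finset.single_le_sum (fun a _ => Complex.normSq_nonneg (z a)) (Finset.mem_univ a)
  have h2 : esq z ≤ ρ := hz
  rw [Complex.normSq_eq_norm_sq] at h1
  nlinarith [norm_nonneg (z a)]

lemma tf_tsupp {a ε : ℝ} (hε : 0 < ε) : tsupport (tf n a ε) ⊆ {z | esq z ≤ 1 - ε / 2} := by
  apply closure_minimal
  · intro z hz
    by_contra h
    exact hz (tf_zero hε (le_of_lt (not_le.1 h)))
  · exact isClosed_le continuous_sq continuous_const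

lemma tf_hcs {a ε : ℝ} (hε : 0 < ε) : HasCompactSupport (tf n a ε) :=
  (isCompact_closedBall (0 : Cn n) 1).of_isClosed_subset (isClosed_tsupport _)
    ((tf_tsupp hε).trans (sub_closedBall (by linarith)))

lemma tf_sub {a ε : ℝ} (hε : 0 < ε) : tsupport (tf n a ε) ⊆ unitBall n := by
  intro z hz
  have : esq z ≤ 1 - ε / 2 := tf_tsupp hε hz
  show esq z < 1
  linarith

lemma tf_ne {a ε : ℝ} (hε : 0 < ε) (h1 : ε ≤ 1) : tf n a ε ≠ 0 := by
  intro h
  have := congrFun h 0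
  unfold tf psi at this
  rw [sq_zero', chi_one (by rw [le_div_iff₀ hε]; linarith)] at this
  simp at this

lemma tf_grad {a ε : ℝ} {z : Cn n} (hz : z ∈ unitBall n) :
    gradSq (gc n 0) (tf n a ε) z = 4 * psi' a ε (esq z) ^ 2 * esq z / Bc (n + 1) 0 (esq z) :=
  gradSq_radial le_rfl hz fun v => ((HD_sq z).comp (hd_psi hz)).fderiv v

lemma vol_ball_lt : volume (unitBall n) < ⊤ := by
  have h : unitBall n ⊆ {z : Cn n | esq z ≤ 1} := fun z hz => le_of_lt (show esq z < 1 from hz)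
  exact lt_of_le_of_lt (measure_mono (h.trans (sub_closedBall le_rfl))) measure_closedBall_lt_top

lemma vol_sub {ρ : ℝ} (hρ : 0 < ρ) :
    volume {z : Cn n | esq z < ρ} = ENNReal.ofReal (ρ ^ n) * volume (unitBall n) := by
  have h1 : {z : Cn n | esq z < ρ} = Real.sqrt ρ • unitBall n := by
    ext z
    have hs : Real.sqrt ρ ≠ 0 := (Real.sqrt_pos.2 hρ).ne'
    rw [mem_smul_set_iff_inv_smul_mem₀ hs]
    show esq z < ρ ↔ esq ((Real.sqrt ρ)⁻¹ • z) < 1
    rw [sq_rsmul, inv_pow, Real.sq_sqrt hρ.le, inv_mul_lt_iff₀ hρ, mul_one]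
  have hdim : Module.finrank ℝ (Cn n) = 2 * n := by
    rw [Module.finrank_pi_fintype]
    simp [Complex.finrank_real_complex, mul_comm]
  rw [h1, Measure.addHaar_smul, hdim, pow_mul, Real.sq_sqrt hρ.le, abs_of_nonneg (by positivity)]

lemma vol_shell {ε : ℝ} (h0 : 0 < ε) (h1 : ε < 1) :
    (volume {z : Cn n | 1 - ε ≤ esq z ∧ esq z < 1}).toReal
      ≤ n * ε * (volume (unitBall n)).toReal := by
  have hsub : {z : Cn n | esq z < 1 - ε} ⊆ unitBall n := fun z hz => by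
    have : esq z < 1 - ε := hz
    show esq z < 1
    linarith
  have e : {z : Cn n | 1 - ε ≤ esq z ∧ esq z < 1} = unitBall n \ {z : Cn n | esq z < 1 - ε} := by
    ext z
    simp only [unitBall, mem_setOf_eq, mem_diff, not_lt]
    tauto
  have hm : MeasurableSet {z : Cn n | esq z < 1 - ε} :=
    (isOpen_lt continuous_sq continuous_const).measurableSet
  have hfin : volume {z : Cn n | esq z < 1 - ε} ≠ ⊤ :=
    (lt_of_le_of_lt (measure_mono hsub) vol_ball_lt).ne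
  rw [e, measure_diff hsub hm.nullMeasurableSet hfin,
    ENNReal.toReal_sub_of_le (measure_mono hsub) vol_ball_lt.ne, vol_sub (by linarith),
    ENNReal.toReal_mul, ENNReal.toReal_ofReal (by have : 0 < 1 - ε := by linarith
                                                  positivity)]
  have hb : 1 + (n : ℝ) * (-ε) ≤ (1 + (-ε)) ^ n := one_add_mul_le_pow (by linarith) n
  have hV : 0 ≤ (volume (unitBall n)).toReal := ENNReal.toReal_nonneg
  have : (1 + -ε) = 1 - ε := by ring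
  rw [this] at hb
  nlinarith

lemma dn_zero {s : ℝ} (hs : s < 1) :
    dn m 0 s = (2 * ((m : ℝ) + 2)) ^ (m + 1) / (1 - s) ^ (m + 2) := by
  have ht : (1 - s) ≠ 0 := by linarith
  unfold dn Pc Bc
  push_cast
  rw [div_pow]
  field_simp
  ring

lemma pointwise {a ε M : ℝ} (ha : 0 ≤ a) (hε : 0 < ε) (hM0 : 0 ≤ M)
    (hM : ∀ x ∈ Icc (1 / 2 : ℝ) 1, |deriv chi x| ≤ M) {z : Cn (m + 1)} (hz : z ∈ unitBall (m + 1)) :
    gradSq (gc (m + 1) 0) (tf (m + 1) a ε) z * dn m 0 (esq z)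
      ≤ 2 * a ^ 2 / (m + 2) * (tf (m + 1) a ε z ^ 2 * dn m 0 (esq z))
        + indicator {z : Cn (m + 1) | 1 - ε ≤ esq z ∧ esq z < 1}
          (fun _ => (a + M) ^ 2 * (ε ^ a) ^ 2 * ((2 * ((m : ℝ) + 2)) ^ (m + 1) / (ε / 2) ^ (m + 2))) z := by
  have hz1 : esq z < 1 := hz
  have h0 := sq_nonneg' z
  have hd := dn_pos (m := m) le_rfl hz1
  set s := esq z with hs
  have ht : 0 < 1 - s := by linarith
  have hm : (0 : ℝ) ≤ m := Nat.cast_nonneg m
  have hg : gradSq (gc (m + 1) 0) (tf (m + 1) a ε) z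
      ≤ 2 / (m + 2) * (((1 - s) ^ a) ^ 2
        * (a * chi ((1 - s) / ε) + (1 - s) / ε * deriv chi ((1 - s) / ε)) ^ 2) := by
    rw [tf_grad hz, ← hs]
    unfold psi' Bc
    push_cast
    set u := (a * chi ((1 - s) / ε) + (1 - s) / ε * deriv chi ((1 - s) / ε))
    set p := (1 - s) ^ a
    have e : 4 * (-(p / (1 - s)) * u) ^ 2 * s / (2 * (m + 1 + 1 + 0 * (1 - s) ^ 2) / (1 - s) ^ 2)
        = 2 / (m + 2) * (p ^ 2 * u ^ 2) * s := by
      field_simp
      ring
    rw [e]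
    have : 0 ≤ 2 / ((m : ℝ) + 2) * (p ^ 2 * u ^ 2) := by positivity
    nlinarith
  have hind : 0 ≤ indicator {z : Cn (m + 1) | 1 - ε ≤ esq z ∧ esq z < 1}
          (fun _ => (a + M) ^ 2 * (ε ^ a) ^ 2
            * ((2 * ((m : ℝ) + 2)) ^ (m + 1) / (ε / 2) ^ (m + 2))) z :=
    indicator_nonneg (fun _ _ => by positivity) z
  by_cases hcase : (1 - s) / ε ∈ Icc (1 / 2 : ℝ) 1
  · have h1 : ε / 2 ≤ 1 - s := by
      have := hcase.1; rw [le_div_iff₀ hε] at this; linarith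
    have h2 : 1 - s ≤ ε := by
      have := hcase.2; rw [div_le_iff₀ hε] at this; linarith
    rw [indicator_of_mem (show z ∈ {z : Cn (m + 1) | 1 - ε ≤ esq z ∧ esq z < 1} from
      ⟨by linarith, hz1⟩)]
    have hu : |a * chi ((1 - s) / ε) + (1 - s) / ε * deriv chi ((1 - s) / ε)| ≤ a + M := by
      refine (abs_add_le _ _).trans (add_le_add ?_ ?_)
      · rw [abs_of_nonneg (mul_nonneg ha (chi_nonneg _))]
        exact mul_le_of_le_one_right ha (chi_le _)
      · rw [abs_mul, abs_of_nonneg (by positivity)]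
        calc _ ≤ 1 * M := mul_le_mul hcase.2 (hM _ hcase) (abs_nonneg _) zero_le_one
          _ = M := one_mul M
    have hu2 : (a * chi ((1 - s) / ε) + (1 - s) / ε * deriv chi ((1 - s) / ε)) ^ 2 ≤ (a + M) ^ 2 := by
      rw [← sq_abs]
      exact pow_le_pow_left₀ (abs_nonneg _) hu 2
    have hp : ((1 - s) ^ a) ^ 2 ≤ (ε ^ a) ^ 2 :=
      pow_le_pow_left₀ (by positivity) (Real.rpow_le_rpow ht.le h2 ha) 2
    have hdn : dn m 0 s ≤ (2 * ((m : ℝ) + 2)) ^ (m + 1) / (ε / 2) ^ (m + 2) := by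
      rw [dn_zero hz1]
      gcongr
    have h3 : 2 / ((m : ℝ) + 2) ≤ 1 := by rw [div_le_one (by positivity)]; linarith
    have h4 : gradSq (gc (m + 1) 0) (tf (m + 1) a ε) z ≤ (a + M) ^ 2 * (ε ^ a) ^ 2 := by
      refine hg.trans ?_
      calc _ ≤ 1 * ((ε ^ a) ^ 2 * (a + M) ^ 2) := by gcongr
        _ = _ := by ring
    have h5 : 0 ≤ 2 * a ^ 2 / (m + 2) * (tf (m + 1) a ε z ^ 2 * dn m 0 s) := by positivity
    have h6 := mul_le_mul h4 hdn hd.le (by positivity)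
    linarith
  · have hd0 : deriv chi ((1 - s) / ε) = 0 := by
      rw [mem_Icc, not_and_or, not_le, not_le] at hcase
      rcases hcase with h | h
      · exact dchi_lt h
      · exact dchi_gt h
    rw [hd0, mul_zero, add_zero] at hg
    have e : 2 / ((m : ℝ) + 2) * (((1 - s) ^ a) ^ 2 * (a * chi ((1 - s) / ε)) ^ 2)
        = 2 * a ^ 2 / (m + 2) * tf (m + 1) a ε z ^ 2 := by
      unfold tf psi
      rw [← hs]
      ring
    rw [e] at hg
    have := mul_le_mul_of_nonneg_right hg hd.le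
    nlinarith

lemma den_lower {a ε : ℝ} (ha : 0 ≤ a) (hε : 0 < ε) (hε1 : ε ≤ 1 / 2) :
    ((1 / 2 : ℝ) ^ a) ^ 2 * ((1 / 2) ^ (m + 1) * (volume (unitBall (m + 1))).toReal)
      ≤ ∫ z in unitBall (m + 1), tf (m + 1) a ε z ^ 2 * dn m 0 (esq z) := by
  have hmb := isOpen_ball' (n := m + 1).measurableSet
  have hm : MeasurableSet {z : Cn (m + 1) | esq z < 1 / 2} :=
    (isOpen_lt continuous_sq continuous_const).measurableSet
  have hsub : {z : Cn (m + 1) | esq z < 1 / 2} ⊆ unitBall (m + 1) := fun z hz => by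
    have : esq z < 1 / 2 := hz
    show esq z < 1
    linarith
  have hfin : volume {z : Cn (m + 1) | esq z < 1 / 2} ≠ ⊤ :=
    (lt_of_le_of_lt (measure_mono hsub) vol_ball_lt).ne
  have i1 := int_phi2' (m := m) (c := 0) (tf_cd (a := a) hε) (tf_hcs hε) (tf_sub hε)
  have h1 : ∫ z in {z : Cn (m + 1) | esq z < 1 / 2}, tf (m + 1) a ε z ^ 2 * dn m 0 (esq z)
      ≤ ∫ z in unitBall (m + 1), tf (m + 1) a ε z ^ 2 * dn m 0 (esq z) := by
    apply setIntegral_mono_set i1 _ hsub.eventuallyLE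
    filter_upwards [ae_restrict_mem hmb] with z hz
    exact mul_nonneg (sq_nonneg _) (dn_pos le_rfl hz).le
  refine le_trans ?_ h1
  have h2 := setIntegral_ge_of_const_le hm hfin (c := ((1 / 2 : ℝ) ^ a) ^ 2)
    (f := fun z => tf (m + 1) a ε z ^ 2 * dn m 0 (esq z)) (by
      intro z hz
      have hz' : esq z < 1 / 2 := hz
      have k1 := dn_ge (m := m) le_rfl (sq_nonneg' z) (by linarith : esq z < 1)
      have k2 : tf (m + 1) a ε z = (1 - esq z) ^ a := by
        unfold tf psi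
        rw [chi_one (by rw [le_div_iff₀ hε]; linarith), mul_one]
      have k3 : ((1 / 2 : ℝ) ^ a) ^ 2 ≤ ((1 - esq z) ^ a) ^ 2 :=
        pow_le_pow_left₀ (by positivity) (Real.rpow_le_rpow (by norm_num) (by linarith) ha) 2
      rw [k2]
      nlinarith [sq_nonneg ((1 - esq z) ^ a)]) (i1.mono_set hsub)
  refine le_trans (le_of_eq ?_) h2
  rw [Measure.real, vol_sub (by norm_num), ENNReal.toReal_mul,
    ENNReal.toReal_ofReal (by positivity), smul_eq_mul]
  ring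

lemma num_upper {a ε M : ℝ} (ha : 0 ≤ a) (hε : 0 < ε) (hε1 : ε < 1) (hM0 : 0 ≤ M)
    (hM : ∀ x ∈ Icc (1 / 2 : ℝ) 1, |deriv chi x| ≤ M) :
    ∫ z in unitBall (m + 1), gradSq (gc (m + 1) 0) (tf (m + 1) a ε) z * dn m 0 (esq z)
      ≤ 2 * a ^ 2 / (m + 2) * (∫ z in unitBall (m + 1), tf (m + 1) a ε z ^ 2 * dn m 0 (esq z))
        + (a + M) ^ 2 * (ε ^ a) ^ 2 * ((2 * ((m : ℝ) + 2)) ^ (m + 1) / (ε / 2) ^ (m + 2))
          * (((m + 1 : ℕ) : ℝ) * ε * (volume (unitBall (m + 1))).toReal) := by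
  have hmb := isOpen_ball' (n := m + 1).measurableSet
  set S := {z : Cn (m + 1) | 1 - ε ≤ esq z ∧ esq z < 1} with hS
  have hmS : MeasurableSet S :=
    (isClosed_le continuous_const continuous_sq).measurableSet.inter
      (isOpen_lt continuous_sq continuous_const).measurableSet
  have hsub : S ⊆ unitBall (m + 1) := fun z hz => hz.2
  have hfin : volume S ≠ ⊤ := (lt_of_le_of_lt (measure_mono hsub) vol_ball_lt).ne
  set K := (a + M) ^ 2 * (ε ^ a) ^ 2 * ((2 * ((m : ℝ) + 2)) ^ (m + 1) / (ε / 2) ^ (m + 2)) with hK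
  have hK0 : 0 ≤ K := by positivity
  have i1 := (int_phi2' (m := m) (c := 0) (tf_cd (a := a) hε) (tf_hcs hε) (tf_sub hε)).const_mul
    (2 * a ^ 2 / ((m : ℝ) + 2))
  have i2 := int_grad' (tf_cd (n := m + 1) (a := a) hε) (tf_hcs hε) (tf_sub hε) le_rfl
  have i3 : Integrable (indicator S fun _ => K) (volume : Measure (Cn (m + 1))) :=
    (integrableOn_const hfin).integrable_indicator hmS
  have h1 := setIntegral_mono_on i2 (IntegrableOn.add i1 i3.integrableOn) hmb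
    (fun z hz => pointwise ha hε hM0 hM hz)
  refine h1.trans ?_
  simp only [Pi.add_apply]
  rw [integral_add i1 i3.integrableOn, integral_const_mul]
  gcongr
  rw [setIntegral_indicator hmS, inter_eq_right.2 hsub, setIntegral_const, smul_eq_mul, mul_comm]
  exact mul_le_mul_of_nonneg_left (vol_shell hε hε1) hK0

/-- The set of Rayleigh quotients. -/
def RQ (n : ℕ) (c : ℝ) : Set ℝ :=
  {q | ∃ φ : Cn n → ℝ, ContDiff ℝ ∞ φ ∧ HasCompactSupport φ ∧ tsupport φ ⊆ unitBall n ∧ φ ≠ 0 ∧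
    q = (∫ z in unitBall n, gradSq (gc n c) φ z * volDensity (gc n c) z)
      / (∫ z in unitBall n, φ z ^ 2 * volDensity (gc n c) z)}

lemma RQ_ne (c : ℝ) : (RQ n c).Nonempty :=
  ⟨_, tf n 1 1, tf_cd one_pos, tf_hcs one_pos, tf_sub one_pos, tf_ne one_pos le_rfl, rfl⟩

lemma RQ_lb {c : ℝ} (hc : 0 ≤ c) (hc1 : c ≤ 1) :
    ∀ q ∈ RQ (m + 1) c, ((m : ℝ) + 1) ^ 2 / (2 * (m + 2)) ≤ q := by
  rintro q ⟨φ, k1, k2, k3, k4, rfl⟩
  rw [le_div_iff₀ (phi2_pos' k1 k2 k3 hc k4)]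
  exact lower_bd k1 k2 k3 hc hc1

theorem bottom_ge {c : ℝ} (hc : 0 ≤ c) (hc1 : c ≤ 1) :
    ((m : ℝ) + 1) ^ 2 / (2 * (m + 2)) ≤ bottomSpectrum (unitBall (m + 1)) (gc (m + 1) c) :=
  le_csInf (RQ_ne c) (RQ_lb hc hc1)

lemma bottom_le_a {a : ℝ} (ha : ((m : ℝ) + 1) / 2 < a) :
    bottomSpectrum (unitBall (m + 1)) (gc (m + 1) 0) ≤ 2 * a ^ 2 / (m + 2) := by
  have hm : (0 : ℝ) ≤ m := Nat.cast_nonneg m
  have ha0 : 0 ≤ a := by linarith
  obtain ⟨M, hM0, hM⟩ := dchi_bd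
  have hmb := isOpen_ball' (n := m + 1).measurableSet
  set V := (volume (unitBall (m + 1))).toReal with hV
  have hV0 : 0 < V := ENNReal.toReal_pos
    (IsOpen.measure_pos volume isOpen_ball' ⟨0, by show esq _ < 1; simp⟩).ne' vol_ball_lt.ne
  set D := ((1 / 2 : ℝ) ^ a) ^ 2 * ((1 / 2) ^ (m + 1) * V) with hD
  have hD0 : 0 < D := by positivity
  set K := (a + M) ^ 2 * ((2 * ((m : ℝ) + 2)) ^ (m + 1) * 2 ^ (m + 2)) * (((m + 1 : ℕ) : ℝ) * V) / D
    with hK
  have key : ∀ ε : ℝ, 0 < ε → ε ≤ 1 / 2 →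
      bottomSpectrum (unitBall (m + 1)) (gc (m + 1) 0)
        ≤ 2 * a ^ 2 / (m + 2) + K * ε ^ (2 * a - (m + 1)) := by
    intro ε hε hε1
    have hmem : (∫ z in unitBall (m + 1), gradSq (gc (m + 1) 0) (tf (m + 1) a ε) z
          * volDensity (gc (m + 1) 0) z)
        / (∫ z in unitBall (m + 1), tf (m + 1) a ε z ^ 2 * volDensity (gc (m + 1) 0) z)
        ∈ RQ (m + 1) 0 :=
      ⟨_, tf_cd hε, tf_hcs hε, tf_sub hε, tf_ne hε (by linarith), rfl⟩
    refine (csInf_le ⟨_, RQ_lb le_rfl zero_le_one⟩ hmem).trans ?_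
    have e1 : ∫ z in unitBall (m + 1), tf (m + 1) a ε z ^ 2 * volDensity (gc (m + 1) 0) z
        = ∫ z in unitBall (m + 1), tf (m + 1) a ε z ^ 2 * dn m 0 (esq z) :=
      setIntegral_congr_fun hmb fun z hz => by simp only [vol_gc le_rfl hz]
    have e2 : ∫ z in unitBall (m + 1), gradSq (gc (m + 1) 0) (tf (m + 1) a ε) z
          * volDensity (gc (m + 1) 0) z
        = ∫ z in unitBall (m + 1), gradSq (gc (m + 1) 0) (tf (m + 1) a ε) z * dn m 0 (esq z) :=
      setIntegral_congr_fun hmb fun z hz => by simp only [vol_gc le_rfl hz]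
    rw [e1, e2]
    have h1 := den_lower (m := m) ha0 hε hε1
    have h2 := num_upper (m := m) ha0 hε (by linarith) hM0 hM
    set I := ∫ z in unitBall (m + 1), tf (m + 1) a ε z ^ 2 * dn m 0 (esq z)
    have hI : 0 < I := lt_of_lt_of_le hD0 h1
    rw [div_le_iff₀ hI]
    refine h2.trans ?_
    have e3 : (a + M) ^ 2 * (ε ^ a) ^ 2 * ((2 * ((m : ℝ) + 2)) ^ (m + 1) / (ε / 2) ^ (m + 2))
          * (((m + 1 : ℕ) : ℝ) * ε * V) = K * ε ^ (2 * a - (m + 1)) * D := by
      have e4 : ε ^ (2 * a - (m + 1)) = (ε ^ a) ^ 2 / ε ^ (m + 1) := by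
        rw [Real.rpow_sub hε, mul_comm 2 a, Real.rpow_mul hε.le, ← Real.rpow_natCast ε (m + 1)]
        push_cast
        norm_num
      rw [e4, hK, div_pow]
      field_simp
      ring
    rw [e3, add_mul]
    have : 0 ≤ K * ε ^ (2 * a - (m + 1)) := by positivity
    have := mul_le_mul_of_nonneg_left h1 this
    linarith
  have hp : 0 < 2 * a - (m + 1) := by linarith
  have hlim : Tendsto (fun ε : ℝ => 2 * a ^ 2 / (m + 2) + K * ε ^ (2 * a - (m + 1))) (𝓝[>] 0)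
      (𝓝 (2 * a ^ 2 / (m + 2) + K * (0 : ℝ) ^ (2 * a - (m + 1)))) := by
    apply Tendsto.mono_left _ nhdsWithin_le_nhds
    exact tendsto_const_nhds.add (tendsto_const_nhds.mul
      (Real.continuousAt_rpow_const 0 _ (Or.inr hp.le)).tendsto)
  rw [Real.zero_rpow hp.ne', mul_zero, add_zero] at hlim
  apply ge_of_tendsto hlim
  filter_upwards [Ioc_mem_nhdsGT (show (0 : ℝ) < 1 / 2 by norm_num)] with ε hε
  exact key ε hε.1 hε.2

theorem bottom_le :
    bottomSpectrum (unitBall (m + 1)) (gc (m + 1) 0) ≤ ((m : ℝ) + 1) ^ 2 / (2 * (m + 2)) := by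
  have hlim : Tendsto (fun a : ℝ => 2 * a ^ 2 / (m + 2)) (𝓝[>] (((m : ℝ) + 1) / 2))
      (𝓝 (2 * (((m : ℝ) + 1) / 2) ^ 2 / (m + 2))) := by
    apply Tendsto.mono_left _ nhdsWithin_le_nhds
    apply Continuous.tendsto (f := fun a : ℝ => 2 * a ^ 2 / ((m : ℝ) + 2))
    fun_prop
  have e : 2 * (((m : ℝ) + 1) / 2) ^ 2 / (m + 2) = ((m : ℝ) + 1) ^ 2 / (2 * (m + 2)) := by
    have : (0 : ℝ) < m + 2 := by positivity
    field_simp
  rw [e] at hlim
  apply ge_of_tendsto hlim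
  filter_upwards [self_mem_nhdsWithin] with a ha
  exact bottom_le_a ha

end Pool.Agent.H143Z.KE
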